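import Pool.Agent.K.MP_37e2d5_al.C0

universe u v w

theorem Pool.Agent.Results.MP_37e2d5_al.CenterDetermined.result :
    ∀ (F : Type u) [Field F] [CharZero F]
      (L : Type v) [LieRing L] [LieAlgebra F L] [Module.Finite F L]
      (H : Type w) [LieRing H] [LieAlgebra F H] [Module.Finite F H],
      Nonempty (UniversalEnvelopingAlgebra F L ≃ₐ[F] UniversalEnvelopingAlgebra F H) →
        Module.finrank F (LieAlgebra.center F L) = Module.finrank F (LieAlgebra.center F H) := by
  intro F _ _ L _ _ _ H _ _ _ ⟨φ⟩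
  exact Pool.Agent.P.MP_37e2d5_al.finrank_center_eq φ
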